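import Pool.Agent.Helper84.BAP.CS
import Pool.Agent.Helper12.BAP.Kah
import Pool.Graph.R_seed8.BAPp.GSigns

/-! Part CQ: cotype of `ℓ_Q^ι`, `1 ≤ Q ≤ 2`. -/

open scoped ENNReal NNReal

set_option maxSynthPendingDepth 3

namespace Pool.Agent.Helper84.BAP

open Pool.Agent.BAPp (sgn)
open Pool.Agent.Helper37.BP

theorem sum_sq_signs {n : ℕ} (a : Fin n → ℝ) :
    ∑ ω : Fin n → Bool, (∑ i, sgn (ω i) * a i) ^ 2 = 2 ^ n * ∑ i, a i ^ 2 := by
  have e1 : ∀ ω : Fin n → Bool, (∑ i, sgn (ω i) * a i) ^ 2 =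
      ∑ i, ∑ j, (a i * a j) * (sgn (ω i) * sgn (ω j)) := by
    intro ω
    rw [sq, Finset.sum_mul_sum]
    refine Finset.sum_congr rfl fun i _ => Finset.sum_congr rfl fun j _ => ?_
    ring
  simp only [e1]
  rw [Finset.sum_comm]
  have e2 : ∀ i : Fin n, ∑ ω : Fin n → Bool, ∑ j, (a i * a j) * (sgn (ω i) * sgn (ω j)) =
      2 ^ n * a i ^ 2 := by
    intro i
    rw [Finset.sum_comm]
    simp only [← Finset.mul_sum, Pool.Agent.BAPp.GSigns.sgn_orth]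
    simp
    ring
  simp only [e2, ← Finset.mul_sum]

/-- `ℓ_r ≤ ℓ_2` for `r ≥ 2` -/
theorem lr_le_l2 {n : ℕ} (a : Fin n → ℝ) (r : ℝ) (hr : 2 ≤ r) :
    (∑ i, |a i| ^ r) ^ (1 / r) ≤ (∑ i, a i ^ 2) ^ (1 / 2 : ℝ) := by
  have hr0 : 0 < r := by linarith
  set S := ∑ i, a i ^ 2 with hS
  have hS0 : 0 ≤ S := Finset.sum_nonneg fun i _ => sq_nonneg _
  have h1 : ∀ i, |a i| ^ r ≤ a i ^ 2 * S ^ ((r - 2) / 2) := by
    intro i
    have h2 : |a i| ^ r = |a i| ^ (2 : ℝ) * |a i| ^ (r - 2) := by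
      rw [← Real.rpow_add_of_nonneg (abs_nonneg _) (by norm_num) (by linarith)]
      congr 1
      ring
    have h3 : |a i| ^ (2 : ℝ) = a i ^ 2 := by
      rw [Real.rpow_two, sq_abs]
    have h4 : |a i| ^ (r - 2) ≤ S ^ ((r - 2) / 2) := by
      have h5 : |a i| ^ (r - 2) = (a i ^ 2) ^ ((r - 2) / 2) := by
        rw [← h3, ← Real.rpow_mul (abs_nonneg _)]
        congr 1
        ring
      rw [h5]
      exact Real.rpow_le_rpow (sq_nonneg _)
        (Finset.single_le_sum (f := fun i => a i ^ 2) (fun i _ => sq_nonneg _)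
          (Finset.mem_univ i)) (by linarith)
    rw [h2, h3]
    exact mul_le_mul_of_nonneg_left h4 (sq_nonneg _)
  have h6 : ∑ i, |a i| ^ r ≤ S ^ (r / 2) := by
    calc ∑ i, |a i| ^ r ≤ ∑ i, a i ^ 2 * S ^ ((r - 2) / 2) := Finset.sum_le_sum fun i _ => h1 i
      _ = S * S ^ ((r - 2) / 2) := by rw [← Finset.sum_mul]
      _ = S ^ (r / 2) := by
          nth_rewrite 1 [← Real.rpow_one S]
          rw [← Real.rpow_add_of_nonneg hS0 (by norm_num) (by linarith)]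
          congr 1
          ring
  calc (∑ i, |a i| ^ r) ^ (1 / r) ≤ (S ^ (r / 2)) ^ (1 / r) :=
        Real.rpow_le_rpow (Finset.sum_nonneg fun i _ => Real.rpow_nonneg (abs_nonneg _) _) h6
          (by positivity)
    _ = S ^ (1 / 2 : ℝ) := by
        rw [← Real.rpow_mul hS0]
        congr 1
        field_simp

theorem cot_real (r : ℝ) (hr : 2 ≤ r) : Cot r 2 ℝ := by
  intro n a
  refine (lr_le_l2 a r hr).trans ?_
  have h1 := Pool.Agent.Helper12.BAP.kahane (normSeminorm ℝ ℝ) n a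
  simp only [coe_normSeminorm, smul_eq_mul, Real.norm_eq_abs, sq_abs] at h1
  rw [sum_sq_signs] at h1
  simp only [smul_eq_mul, Real.norm_eq_abs]
  set S := ∑ i, a i ^ 2 with hS
  set A := ∑ ω : Fin n → Bool, |∑ i, sgn (ω i) * a i| with hA
  have hS0 : 0 ≤ S := Finset.sum_nonneg fun i _ => sq_nonneg _
  have hA0 : 0 ≤ A := Finset.sum_nonneg fun i _ => abs_nonneg _
  rw [← Real.sqrt_eq_rpow]
  refine Real.sqrt_le_iff.2 ⟨by positivity, ?_⟩
  have h2 : (2 : ℝ) ^ n * 2 ^ n * S ≤ 2 * A ^ 2 := by linarith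
  have h3 : (2 * (A / 2 ^ n)) ^ 2 = 4 * A ^ 2 / (2 ^ n * 2 ^ n) := by
    field_simp
    ring
  rw [h3, le_div_iff₀ (by positivity)]
  nlinarith [sq_nonneg A]

theorem cot_PiLp (Q : ℝ≥0∞) [Fact (1 ≤ Q)] (hQ : Q ≤ 2) (r : ℝ) (hr : 2 ≤ r) {ι : Type}
    [Fintype ι] : Cot r 2 (PiLp Q (fun _ : ι => ℝ)) := by
  intro n x
  have hQt : Q ≠ ∞ := ne_top_of_le_ne_top ENNReal.ofNat_ne_top hQ
  set P : ℝ := Q.toReal with hPdef
  have hP : 1 ≤ P := by
    have : (1 : ℝ≥0∞) ≤ Q := Fact.out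
    have h2 := (ENNReal.toReal_le_toReal ENNReal.one_ne_top hQt).2 this
    simpa using h2
  have hP2 : P ≤ 2 := by
    have h2 := (ENNReal.toReal_le_toReal hQt ENNReal.ofNat_ne_top).2 hQ
    simpa using h2
  have hP0 : 0 < P := by linarith
  have h1 := cot_fin P r 2 hP (by linarith) (by norm_num) (fun _ : ι => ℝ)
    (fun _ => cot_real r hr) Finset.univ n (fun k i => x k i)
  have hn : ∀ y : PiLp Q (fun _ : ι => ℝ), ‖y‖ = (∑ i, ‖y i‖ ^ P) ^ (1 / P) := fun y =>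
    PiLp.norm_eq_sum hP0 y
  simp only [hn]
  have hcoe : ∀ (ω : Fin n → Bool) (i : ι),
      (∑ k, sgn (ω k) • x k : PiLp Q (fun _ : ι => ℝ)) i = ∑ k, sgn (ω k) • x k i := by
    intro ω i
    simp
  simp only [hcoe]
  exact h1

end Pool.Agent.Helper84.BAP
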