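import Pool.Agent.Helper37.BP.Defs2

/-! Part CS: cotype of `ℓ_P` sums. -/

open scoped ENNReal NNReal

set_option maxSynthPendingDepth 3

namespace Pool.Agent.Helper84.BAP

open Pool.Agent.BAPp (sgn)
open Pool.Agent.Helper37.BP

/-- Minkowski's inequality for exponents `P ≤ r`. -/
theorem mink {I J : Type} (s : Finset I) (t : Finset J) (a : I → J → ℝ) (ha : ∀ i j, 0 ≤ a i j)
    (P r : ℝ) (hP : 0 < P) (hPr : P ≤ r) :
    (∑ j ∈ t, (∑ i ∈ s, a i j ^ P) ^ (r / P)) ^ (P / r) ≤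
      ∑ i ∈ s, (∑ j ∈ t, a i j ^ r) ^ (P / r) := by
  classical
  have hr : 0 < r := lt_of_lt_of_le hP hPr
  have h1 : 1 ≤ r / P := by rw [le_div_iff₀ hP]; linarith
  have h2 : P / r = 1 / (r / P) := by field_simp
  induction s using Finset.induction_on with
  | empty =>
    simp only [Finset.sum_empty]
    rw [Real.zero_rpow (by positivity), Finset.sum_const_zero, Real.zero_rpow (by positivity)]
  | insert i0 s hi ih =>
    rw [Finset.sum_insert hi]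
    have e1 : ∀ j, (∑ i ∈ insert i0 s, a i j ^ P) = a i0 j ^ P + ∑ i ∈ s, a i j ^ P :=
      fun j => Finset.sum_insert hi
    simp only [e1]
    have h3 := Real.Lp_add_le_of_nonneg (s := t) (f := fun j => a i0 j ^ P)
      (g := fun j => ∑ i ∈ s, a i j ^ P) h1 (fun j _ => Real.rpow_nonneg (ha _ _) _)
      (fun j _ => Finset.sum_nonneg fun i _ => Real.rpow_nonneg (ha _ _) _)
    rw [← h2] at h3
    have e2 : ∀ j, (a i0 j ^ P) ^ (r / P) = a i0 j ^ r := by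
      intro j
      rw [← Real.rpow_mul (ha _ _)]
      congr 1
      field_simp
    simp only [e2] at h3
    exact h3.trans (add_le_add le_rfl ih)

/-- cotype of finite `ℓ_P` sums -/
theorem cot_fin (P r C : ℝ) (hP : 1 ≤ P) (hPr : P ≤ r) (hC : 0 ≤ C) {I : Type} (B : I → Type)
    [∀ i, NormedAddCommGroup (B i)] [∀ i, NormedSpace ℝ (B i)] (h : ∀ i, Cot r C (B i))
    (s : Finset I) (n : ℕ) (x : Fin n → (i : I) → B i) :
    (∑ k, ((∑ i ∈ s, ‖x k i‖ ^ P) ^ (1 / P)) ^ r) ^ (1 / r) ≤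
      C * ((∑ ω : Fin n → Bool, (∑ i ∈ s, ‖∑ k, sgn (ω k) • x k i‖ ^ P) ^ (1 / P)) / 2 ^ n) := by
  have hP0 : 0 < P := by linarith
  have hr : 0 < r := by linarith
  set f : (Fin n → Bool) → (i : I) → B i := fun ω i => ∑ k, sgn (ω k) • x k i with hf
  have e1 : (∑ k, ((∑ i ∈ s, ‖x k i‖ ^ P) ^ (1 / P)) ^ r) ^ (1 / r) =
      ((∑ k, (∑ i ∈ s, ‖x k i‖ ^ P) ^ (r / P)) ^ (P / r)) ^ (1 / P) := by
    rw [← Real.rpow_mul (Finset.sum_nonneg fun k _ => Real.rpow_nonneg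
      (Finset.sum_nonneg fun i _ => Real.rpow_nonneg (norm_nonneg _) _) _)]
    congr 1
    · refine Finset.sum_congr rfl fun k _ => ?_
      rw [← Real.rpow_mul (Finset.sum_nonneg fun i _ => Real.rpow_nonneg (norm_nonneg _) _)]
      congr 1
      field_simp
    · field_simp
  have e2 : ∀ i, (∑ k, ‖x k i‖ ^ r) ^ (P / r) ≤
      (∑ ω : Fin n → Bool, C / 2 ^ n * ‖f ω i‖) ^ P := by
    intro i
    have h1 := h i n (fun k => x k i)
    have h2 : (∑ k, ‖x k i‖ ^ r) ^ (P / r) = ((∑ k, ‖x k i‖ ^ r) ^ (1 / r)) ^ P := by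
      rw [← Real.rpow_mul (Finset.sum_nonneg fun k _ => Real.rpow_nonneg (norm_nonneg _) _)]
      congr 1
      field_simp
    rw [h2]
    refine Real.rpow_le_rpow (Real.rpow_nonneg (Finset.sum_nonneg fun k _ =>
      Real.rpow_nonneg (norm_nonneg _) _) _) (h1.trans (le_of_eq ?_)) hP0.le
    rw [← Finset.mul_sum]
    ring
  have e3 : (∑ k, (∑ i ∈ s, ‖x k i‖ ^ P) ^ (r / P)) ^ (P / r) ≤
      ∑ i ∈ s, (∑ ω : Fin n → Bool, C / 2 ^ n * ‖f ω i‖) ^ P :=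
    (mink s Finset.univ (fun i k => ‖x k i‖) (fun _ _ => norm_nonneg _) P r hP0 hPr).trans
      (Finset.sum_le_sum fun i _ => e2 i)
  rw [e1]
  have e4 : ((∑ k, (∑ i ∈ s, ‖x k i‖ ^ P) ^ (r / P)) ^ (P / r)) ^ (1 / P) ≤
      (∑ i ∈ s, (∑ ω : Fin n → Bool, C / 2 ^ n * ‖f ω i‖) ^ P) ^ (1 / P) :=
    Real.rpow_le_rpow (Real.rpow_nonneg (Finset.sum_nonneg fun k _ => Real.rpow_nonneg
      (Finset.sum_nonneg fun i _ => Real.rpow_nonneg (norm_nonneg _) _) _) _) e3 (by positivity)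
  refine e4.trans ?_
  have hC2 : 0 ≤ C / 2 ^ n := by positivity
  have e5 := mink (Finset.univ : Finset (Fin n → Bool)) s (fun ω i => C / 2 ^ n * ‖f ω i‖)
    (fun _ _ => mul_nonneg hC2 (norm_nonneg _)) 1 P one_pos hP
  simp only [Real.rpow_one, div_one] at e5
  refine e5.trans (le_of_eq ?_)
  have e6 : ∀ ω : Fin n → Bool, (∑ i ∈ s, (C / 2 ^ n * ‖f ω i‖) ^ P) ^ (1 / P) =
      C / 2 ^ n * (∑ i ∈ s, ‖f ω i‖ ^ P) ^ (1 / P) := by
    intro ω
    have : ∀ i ∈ s, (C / 2 ^ n * ‖f ω i‖) ^ P = (C / 2 ^ n) ^ P * ‖f ω i‖ ^ P := fun i _ =>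
      Real.mul_rpow hC2 (norm_nonneg _)
    rw [Finset.sum_congr rfl this, ← Finset.mul_sum, Real.mul_rpow (Real.rpow_nonneg hC2 _)
      (Finset.sum_nonneg fun i _ => Real.rpow_nonneg (norm_nonneg _) _), ← Real.rpow_mul hC2,
      mul_one_div_cancel hP0.ne', Real.rpow_one]
  rw [Finset.sum_congr rfl fun ω _ => e6 ω, ← Finset.mul_sum]
  ring

theorem cot_lp_gen (E : ℝ≥0∞) [Fact (1 ≤ E)] (r C : ℝ) (hE : E ≠ ∞) (hPr : E.toReal ≤ r)
    (hC : 0 ≤ C) {I : Type} (B : I → Type) [∀ i, NormedAddCommGroup (B i)]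
    [∀ i, NormedSpace ℝ (B i)] (h : ∀ i, Cot r C (B i)) : Cot r C (lp B E) := by
  intro n x
  set P : ℝ := E.toReal with hPdef
  have hP : 1 ≤ P := by
    have : (1 : ℝ≥0∞) ≤ E := Fact.out
    have h2 := (ENNReal.toReal_le_toReal ENNReal.one_ne_top hE).2 this
    simpa using h2
  have hP0 : 0 < P := by linarith
  have hr : 0 < r := by linarith
  have hn : ∀ y : lp B E, ‖y‖ = (∑' i, ‖y i‖ ^ P) ^ (1 / P) := fun y =>
    lp.norm_eq_tsum_rpow hP0 y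
  have hs : ∀ y : lp B E, HasSum (fun i => ‖y i‖ ^ P) (‖y‖ ^ P) := fun y => by
    have := lp.hasSum_norm hP0 y
    exact this
  have hle : ∀ (s : Finset I) (y : lp B E), (∑ i ∈ s, ‖y i‖ ^ P) ^ (1 / P) ≤ ‖y‖ := by
    intro s y
    have h1 : ∑ i ∈ s, ‖y i‖ ^ P ≤ ‖y‖ ^ P :=
      sum_le_hasSum s (fun i _ => Real.rpow_nonneg (norm_nonneg _) _) (hs y)
    calc (∑ i ∈ s, ‖y i‖ ^ P) ^ (1 / P) ≤ (‖y‖ ^ P) ^ (1 / P) :=
          Real.rpow_le_rpow (Finset.sum_nonneg fun i _ => Real.rpow_nonneg (norm_nonneg _) _) h1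
            (by positivity)
      _ = ‖y‖ := by
          rw [← Real.rpow_mul (norm_nonneg _), mul_one_div_cancel hP0.ne', Real.rpow_one]
  have hcoe : ∀ (ω : Fin n → Bool) (i : I),
      ((∑ k, sgn (ω k) • x k : lp B E) : (i : I) → B i) i = ∑ k, sgn (ω k) • (x k) i := by
    intro ω i
    have := lp.coeFn_sum (fun k => sgn (ω k) • x k) Finset.univ
    rw [this, Finset.sum_apply]
    rfl
  have hbound : ∀ s : Finset I, (∑ k, ((∑ i ∈ s, ‖x k i‖ ^ P) ^ (1 / P)) ^ r) ^ (1 / r) ≤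
      C * ((∑ ω : Fin n → Bool, ‖∑ k, sgn (ω k) • x k‖) / 2 ^ n) := by
    intro s
    refine (cot_fin P r C hP hPr hC B h s n (fun k i => x k i)).trans ?_
    refine mul_le_mul_of_nonneg_left ?_ hC
    refine div_le_div_of_nonneg_right ?_ (by positivity)
    refine Finset.sum_le_sum fun ω _ => ?_
    have := hle s (∑ k, sgn (ω k) • x k)
    simp only [hcoe] at this
    exact this
  refine le_of_tendsto' (f := fun s : Finset I =>
    (∑ k, ((∑ i ∈ s, ‖x k i‖ ^ P) ^ (1 / P)) ^ r) ^ (1 / r)) (x := Filter.atTop) ?_ hbound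
  have h3 : ∀ k, Filter.Tendsto (fun s : Finset I => ((∑ i ∈ s, ‖x k i‖ ^ P) ^ (1 / P)) ^ r)
      Filter.atTop (nhds (‖x k‖ ^ r)) := by
    intro k
    have h4 : Filter.Tendsto (fun s : Finset I => (∑ i ∈ s, ‖x k i‖ ^ P)) Filter.atTop
        (nhds (‖x k‖ ^ P)) := hs (x k)
    have h5 : ‖x k‖ ^ r = ((‖x k‖ ^ P) ^ (1 / P)) ^ r := by
      rw [← Real.rpow_mul (norm_nonneg _), mul_one_div_cancel hP0.ne', Real.rpow_one]
    rw [h5]
    exact (h4.rpow_const (Or.inr (by positivity))).rpow_const (Or.inr hr.le)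
  exact (tendsto_finsetSum _ fun k _ => h3 k).rpow_const (Or.inr (by positivity))

theorem cot_lp (P : ℝ) [Fact (1 ≤ ENNReal.ofReal P)] (r C : ℝ) (hP : 1 ≤ P) (hPr : P ≤ r)
    (hC : 0 ≤ C) {I : Type} (B : I → Type) [∀ i, NormedAddCommGroup (B i)]
    [∀ i, NormedSpace ℝ (B i)] (h : ∀ i, Cot r C (B i)) : Cot r C (lp B (ENNReal.ofReal P)) := by
  refine cot_lp_gen _ r C ENNReal.ofReal_ne_top ?_ hC B h
  rw [ENNReal.toReal_ofReal (by linarith)]
  exact hPr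

theorem cot_lp_one (r C : ℝ) (hr : 1 ≤ r) (hC : 0 ≤ C) {I : Type} (B : I → Type)
    [∀ i, NormedAddCommGroup (B i)] [∀ i, NormedSpace ℝ (B i)] (h : ∀ i, Cot r C (B i)) :
    Cot r C (lp B 1) := by
  refine cot_lp_gen _ r C ENNReal.one_ne_top ?_ hC B h
  simpa using hr

end Pool.Agent.Helper84.BAP
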