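import Pool.Agent.Helper37.BP.Defs2

/-! Part RS: Rademacher lifting for `ℓ_1` sums. -/

open scoped ENNReal NNReal

set_option maxSynthPendingDepth 3

namespace Pool.Agent.Helper84.BAP

open Pool.Agent.BAPp (sgn)
open Pool.Agent.Helper37.BP

/-- one vector is controlled by the signed sums -/
theorem norm_le_signs {B : Type} [NormedAddCommGroup B] [NormedSpace ℝ B] {N : ℕ}
    (y : Fin N → B) (j : Fin N) :
    ‖y j‖ ≤ ∑ ω : Fin N → Bool, ‖∑ k, sgn (ω k) • y k‖ := by
  classical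
  set f : (Fin N → Bool) → B := fun ω => ∑ k, sgn (ω k) • y k with hf
  set a : Fin N → Bool := fun _ => true with ha
  set b : Fin N → Bool := fun k => if k = j then true else false with hb
  have h1 : f a + f b = (2 : ℝ) • y j := by
    rw [hf]
    simp only
    rw [← Finset.sum_add_distrib]
    rw [Finset.sum_eq_single j]
    · simp [ha, hb, sgn, two_smul]
    · intro k _ hk
      simp [ha, hb, sgn, hk]
    · intro h
      exact absurd (Finset.mem_univ j) h
  have h2 : 2 * ‖y j‖ ≤ ‖f a‖ + ‖f b‖ := by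
    have : ‖(2 : ℝ) • y j‖ = 2 * ‖y j‖ := by rw [norm_smul]; norm_num
    rw [← this, ← h1]
    exact norm_add_le _ _
  have h3 : ∀ ω, ‖f ω‖ ≤ ∑ ω : Fin N → Bool, ‖f ω‖ := fun ω =>
    Finset.single_le_sum (f := fun ω => ‖f ω‖) (fun _ _ => norm_nonneg _) (Finset.mem_univ ω)
  have h4 := h3 a
  have h5 := h3 b
  change ‖y j‖ ≤ ∑ ω : Fin N → Bool, ‖f ω‖
  linarith

theorem norm_l1 {I : Type} {B : I → Type} [∀ i, NormedAddCommGroup (B i)]
    (x : lp B 1) : Summable (fun i => ‖x i‖) ∧ ‖x‖ = ∑' i, ‖x i‖ := by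
  have h0 : 0 < (1 : ℝ≥0∞).toReal := by simp
  have h1 := lp.hasSum_norm h0 x
  simp only [ENNReal.toReal_one, Real.rpow_one] at h1
  exact ⟨h1.summable, h1.tsum_eq.symm⟩

theorem memlp_one {I : Type} {B : I → Type} [∀ i, NormedAddCommGroup (B i)]
    (x : (i : I) → B i) (h : Summable (fun i => ‖x i‖)) : Memℓp x 1 := by
  refine memℓp_gen ?_
  simpa using h

theorem radLift_l1 (K : ℝ) (hK : 0 ≤ K) {I : Type} (B : I → Type)
    [∀ i, NormedAddCommGroup (B i)] [∀ i, NormedSpace ℝ (B i)] (S : ∀ i, Submodule ℝ (B i))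
    (h : ∀ i, RadLift K (S i)) (T : Submodule ℝ (lp B 1)) (hT : ∀ x, x ∈ T ↔ ∀ i, x i ∈ S i) :
    RadLift K T := by
  intro N b s
  have hcoe : ∀ (c : Fin N → ℝ) (y : Fin N → lp B 1) (i : I),
      ((∑ k, c k • y k : lp B 1) : (i : I) → B i) i = ∑ k, c k • (y k) i := by
    intro c y i
    have := lp.coeFn_sum (fun k => c k • y k) Finset.univ
    rw [this, Finset.sum_apply]
    rfl
  have hs : ∀ ω i, (s ω : lp B 1) i ∈ S i := fun ω => (hT _).1 (s ω).2
  choose σ hσ using fun i => h i N (fun j => b j i) (fun ω => ⟨(s ω : lp B 1) i, hs ω i⟩)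
  -- the right-hand side at `i`
  set R : I → ℝ := fun i => K * ∑ ω : Fin N → Bool,
    ‖(∑ j, sgn (ω j) • b j + (s ω : lp B 1) : lp B 1) i‖ with hR
  have hRsum : Summable R := by
    refine Summable.mul_left K ?_
    exact summable_sum fun ω _ => (norm_l1 _).1
  have hσ' : ∀ i, ∑ ω : Fin N → Bool, ‖∑ j, sgn (ω j) • (b j i + (σ i j : B i))‖ ≤ R i := by
    intro i
    refine (hσ i).trans (le_of_eq ?_)
    rw [hR]
    simp only
    congr 1
    refine Finset.sum_congr rfl fun ω _ => ?_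
    have : (∑ j, sgn (ω j) • b j + (s ω : lp B 1) : lp B 1) i =
        (∑ j, sgn (ω j) • b j : lp B 1) i + (s ω : lp B 1) i := rfl
    rw [this, hcoe]
  have hσsum : ∀ j, Summable (fun i => ‖(σ i j : B i)‖) := by
    intro j
    refine Summable.of_nonneg_of_le (fun i => norm_nonneg _) (fun i => ?_)
      (((norm_l1 (b j)).1).add hRsum)
    have h1 := norm_le_signs (fun k => b k i + (σ i k : B i)) j
    have h2 : (σ i j : B i) = (b j i + (σ i j : B i)) - b j i := by abel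
    rw [h2]
    calc ‖(b j i + (σ i j : B i)) - b j i‖ ≤ ‖b j i + (σ i j : B i)‖ + ‖b j i‖ := norm_sub_le _ _
      _ ≤ R i + ‖b j i‖ := add_le_add (h1.trans (hσ' i)) le_rfl
      _ = ‖b j i‖ + R i := add_comm _ _
  set τ : Fin N → lp B 1 := fun j => ⟨fun i => (σ i j : B i), memlp_one _ (hσsum j)⟩ with hτ
  have hτT : ∀ j, τ j ∈ T := fun j => (hT _).2 fun i => (σ i j).2
  refine ⟨fun j => ⟨τ j, hτT j⟩, ?_⟩
  have e1 : ∀ ω : Fin N → Bool, ‖∑ j, sgn (ω j) • (b j + τ j)‖ =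
      ∑' i, ‖∑ j, sgn (ω j) • (b j i + (σ i j : B i))‖ := by
    intro ω
    rw [(norm_l1 _).2]
    refine tsum_congr fun i => ?_
    rw [hcoe]
    rfl
  have e1s : ∀ ω : Fin N → Bool,
      Summable fun i => ‖∑ j, sgn (ω j) • (b j i + (σ i j : B i))‖ := by
    intro ω
    have := (norm_l1 (∑ j, sgn (ω j) • (b j + τ j))).1
    refine this.congr fun i => ?_
    rw [hcoe]
    rfl
  simp only [e1]
  rw [← Summable.tsum_finsetSum fun ω _ => e1s ω]
  have e2 : K * ∑ ω : Fin N → Bool, ‖∑ j, sgn (ω j) • b j + (s ω : lp B 1)‖ = ∑' i, R i := by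
    rw [hR, tsum_mul_left, Summable.tsum_finsetSum fun ω _ => (norm_l1 _).1]
    congr 1
    exact Finset.sum_congr rfl fun ω _ => (norm_l1 _).2
  rw [e2]
  exact Summable.tsum_le_tsum hσ' (summable_sum fun ω _ => e1s ω) hRsum

end Pool.Agent.Helper84.BAP
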