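import Pool.Agent.Helper12.BAP.RL
import Pool.Agent.Helper49.BAP.PO
import Pool.Agent.Helper84.BAP.CQ
import Pool.Agent.Helper84.BAP.RS

/-! Part STEP: one step of the construction, all operators at once. -/

open scoped ENNReal NNReal

set_option maxSynthPendingDepth 3

namespace Pool.Agent.Helper84.BAP

open Pool.Agent.BAPp (sgn)
open Pool.Agent.Helper37.BP

/-- a sum of linear maps dominated by coordinates of an `ℓ_1` sum -/
theorem sumMap {V Z : Type} [NormedAddCommGroup V] [NormedSpace ℝ V] [NormedAddCommGroup Z]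
    [NormedSpace ℝ Z] [CompleteSpace Z] {I : Type} (g : I → V →ₗ[ℝ] Z) (nn : I → V → ℝ) (c : ℝ)
    (hc : 0 ≤ c) (hs : ∀ x, Summable (fun i => nn i x)) (hle : ∀ x, ∑' i, nn i x ≤ ‖x‖)
    (hg : ∀ i x, ‖g i x‖ ≤ c * nn i x) :
    ∃ L : V →L[ℝ] Z, (∀ x, HasSum (fun i => g i x) (L x)) ∧ ‖L‖ ≤ c := by
  have h1 : ∀ x, Summable (fun i => g i x) := fun x =>
    Summable.of_norm_bounded ((hs x).mul_left c) (fun i => hg i x)
  let L0 : V →ₗ[ℝ] Z :=
    { toFun := fun x => ∑' i, g i x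
      map_add' := fun x y => by
        simp only [map_add]
        exact (h1 x).tsum_add (h1 y)
      map_smul' := fun a x => by
        simp only [map_smul, RingHom.id_apply]
        exact (h1 x).tsum_const_smul a }
  have h2 : ∀ x, ‖L0 x‖ ≤ c * ‖x‖ := by
    intro x
    have h3 : Summable (fun i => ‖g i x‖) :=
      Summable.of_nonneg_of_le (fun i => norm_nonneg _) (fun i => hg i x) ((hs x).mul_left c)
    calc ‖L0 x‖ ≤ ∑' i, ‖g i x‖ := norm_tsum_le_tsum_norm h3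
      _ ≤ ∑' i, c * nn i x := h3.tsum_le_tsum (fun i => hg i x) ((hs x).mul_left c)
      _ = c * ∑' i, nn i x := tsum_mul_left
      _ ≤ c * ‖x‖ := mul_le_mul_of_nonneg_left (hle x) hc
  refine ⟨L0.mkContinuous c h2, fun x => (h1 x).hasSum, L0.mkContinuous_norm_le hc h2⟩

/-- the index set: all operators of norm `≤ η` from subspaces of `ℓ_q^n` into `X` -/
structure Idx (q η : ℝ) (X : Type) [NormedAddCommGroup X] [NormedSpace ℝ X] : Type where
  n : ℕ
  S : Submodule ℝ (Fin n → ℝ)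
  u : S →ₗ[ℝ] X
  hu : ∀ s : S, ‖u s‖ ≤ η * (∑ i, |(s : Fin n → ℝ) i| ^ q) ^ (1 / q)

theorem step (p q r : ℝ) (hpq : p.HolderConjugate q) (hp : 2 ≤ p) (hr : 2 ≤ r) :
    ∃ (η0 C0 : ℝ), 0 < η0 ∧ η0 ≤ 1 ∧ ∀ (η C : ℝ), 0 < η → η ≤ η0 → C0 ≤ C →
    ∀ (Z : Type) [NormedAddCommGroup Z] [NormedSpace ℝ Z] [CompleteSpace Z] (lam : ℝ),
    0 ≤ lam → LqEP q lam Z → η * lam ≤ 1 → ∀ O : TObj r C Z,
    ∃ (O' : TObj r C Z) (j : O.X →ₗᵢ[ℝ] O'.X), (∀ x, O'.Ψ (j x) = O.Ψ x) ∧ ExtStep q η j := by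
  classical
  have hq1 : 1 < q := hpq.symm.lt
  have hq0 : 0 < q := by linarith
  have hp1 : 1 < p := hpq.lt
  have hq2 : q ≤ 2 := by
    have h1 := hpq.inv_add_inv_eq_one
    have h2 : p⁻¹ ≤ 2⁻¹ := inv_anti₀ (by norm_num) hp
    have h3 : (2 : ℝ)⁻¹ ≤ q⁻¹ := by
      have : (2 : ℝ)⁻¹ = 1 - 2⁻¹ := by norm_num
      linarith
    exact (inv_le_inv₀ (by norm_num) hq0).1 h3
  have hF : Fact (1 ≤ ENNReal.ofReal q) := ⟨by
    rw [← ENNReal.ofReal_one]
    exact ENNReal.ofReal_le_ofReal hq1.le⟩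
  have hQ2 : ENNReal.ofReal q ≤ 2 := by
    have : (2 : ℝ≥0∞) = ENNReal.ofReal 2 := by simp
    rw [this]
    exact ENNReal.ofReal_le_ofReal hq2
  have hQt : (ENNReal.ofReal q).toReal = q := ENNReal.toReal_ofReal hq0.le
  obtain ⟨K, hK1, hK⟩ := Pool.Agent.Helper12.BAP.radLift_lq p q hpq hp
  have hK0 : 0 < 1 + K := by linarith
  refine ⟨1 / (2 * (1 + K)), 4 * K, by positivity, ?_, ?_⟩
  · rw [div_le_one (by positivity)]
    linarith
  intro η C hη hηle hC Z _ _ _ lam hlam hZ hηlam O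
  have hC0 : 0 ≤ C := by linarith
  have hη1 : η ≤ 1 := hηle.trans (by
    rw [div_le_one (by positivity)]
    linarith)
  have hη2 : η * (1 + K) ≤ 1 / 2 := by
    calc η * (1 + K) ≤ 1 / (2 * (1 + K)) * (1 + K) := mul_le_mul_of_nonneg_right hηle hK0.le
      _ = 1 / 2 := by field_simp
  have hcond : 2 * K + C * η * (1 + K) ≤ C := by
    have : C * η * (1 + K) ≤ C * (1 / 2) := by
      rw [mul_assoc]
      exact mul_le_mul_of_nonneg_left hη2 hC0
    linarith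
  -- norms in `ℓ_q^n`
  have hnq : ∀ (n : ℕ) (y : PiLp (ENNReal.ofReal q) (fun _ : Fin n => ℝ)),
      ‖y‖ = (∑ i, |y i| ^ q) ^ (1 / q) := by
    intro n y
    rw [PiLp.norm_eq_sum (by rw [hQt]; exact hq0), hQt]
    simp only [Real.norm_eq_abs]
  let B : Idx q η O.X → Type := fun i => PiLp (ENNReal.ofReal q) (fun _ : Fin i.n => ℝ)
  let _ : ∀ i, NormedAddCommGroup (B i) := fun i => inferInstanceAs
    (NormedAddCommGroup (PiLp (ENNReal.ofReal q) (fun _ : Fin i.n => ℝ)))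
  let _ : ∀ i, NormedSpace ℝ (B i) := fun i => inferInstanceAs
    (NormedSpace ℝ (PiLp (ENNReal.ofReal q) (fun _ : Fin i.n => ℝ)))
  have : ∀ i, CompleteSpace (B i) := fun i => inferInstanceAs
    (CompleteSpace (PiLp (ENNReal.ofReal q) (fun _ : Fin i.n => ℝ)))
  have : ∀ i, FiniteDimensional ℝ (B i) := fun i => inferInstanceAs
    (FiniteDimensional ℝ (PiLp (ENNReal.ofReal q) (fun _ : Fin i.n => ℝ)))
  let S' : ∀ i, Submodule ℝ (B i) := fun i =>
    i.S.comap (WithLp.linearEquiv (ENNReal.ofReal q) ℝ (Fin i.n → ℝ)).toLinearMap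
  let T : Submodule ℝ (lp B 1) :=
    { carrier := {x | ∀ i, x i ∈ S' i}
      add_mem' := fun {x y} hx hy i => (S' i).add_mem (hx i) (hy i)
      zero_mem' := fun i => (S' i).zero_mem
      smul_mem' := fun a x hx i => (S' i).smul_mem a (hx i) }
  have hT : ∀ x, x ∈ T ↔ ∀ i, x i ∈ S' i := fun x => Iff.rfl
  have hTcl : IsClosed (T : Set (lp B 1)) := by
    have : (T : Set (lp B 1)) = ⋂ i, (lp.evalCLM ℝ B 1 i) ⁻¹' (S' i : Set (B i)) := by
      ext x
      simp only [Set.mem_iInter]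
      exact hT x
    rw [this]
    exact isClosed_iInter fun i =>
      (Submodule.closed_of_finiteDimensional (S' i)).preimage (lp.evalCLM ℝ B 1 i).continuous
  have hLift : RadLift K T :=
    radLift_l1 K (by linarith) B S' (fun i => hK i.n (S' i)) T hT
  have hcotB : Cot r 2 (lp B 1) :=
    cot_lp_one r 2 (by linarith) (by norm_num) B (fun i =>
      cot_PiLp (ENNReal.ofReal q) hQ2 r hr)
  -- the map `U`
  let mem' : ∀ (i : Idx q η O.X) (x : B i), x ∈ S' i → (WithLp.linearEquiv (ENNReal.ofReal q) ℝ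
    (Fin i.n → ℝ)) x ∈ i.S := fun i x hx => hx
  let gU : Idx q η O.X → T →ₗ[ℝ] O.X := fun i =>
    i.u.comp (LinearMap.codRestrict i.S
      ((WithLp.linearEquiv (ENNReal.ofReal q) ℝ (Fin i.n → ℝ)).toLinearMap.comp
        (((lp.evalCLM ℝ B 1 i).toLinearMap).comp T.subtype)) (fun x => x.2 i))
  have hgU : ∀ i (x : T), ‖gU i x‖ ≤ η * ‖(x : lp B 1) i‖ := by
    intro i x
    have h1 := i.hu ⟨_, mem' i _ (x.2 i)⟩
    have h2 : ‖(x : lp B 1) i‖ = (∑ k, |(x : lp B 1) i k| ^ q) ^ (1 / q) := hnq i.n _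
    rw [h2]
    exact h1
  obtain ⟨U, hU, hUn⟩ := sumMap gU (fun i x => ‖(x : lp B 1) i‖) η hη.le
    (fun x => (norm_l1 (x : lp B 1)).1) (fun x => (norm_l1 (x : lp B 1)).2.symm.le) hgU
  -- the push-out
  obtain ⟨X', i1, i2, i3, j, kk, hcot, hkk, hjk, huniv⟩ :=
    Pool.Agent.Helper49.BAP.pushout r C 2 K η (by linarith) hC0 (by norm_num) (by linarith)
      hη.le hη1 hcond O.cot hcotB T hTcl hLift U hUn
  -- the map `v`
  have hbi : ∀ i : Idx q η O.X, ∃ b : Fin i.n → Z,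
      (∀ s : i.S, O.Ψ (i.u s) = ∑ k, (s : Fin i.n → ℝ) k • b k) ∧
      ∀ t : Fin i.n → ℝ, ‖∑ k, t k • b k‖ ≤ (∑ k, |t k| ^ q) ^ (1 / q) := by
    intro i
    obtain ⟨b, hb1, hb2⟩ := hZ i.n i.S (η⁻¹ • (O.Ψ.toLinearMap.comp i.u)) (by
      intro s
      have h1 := i.hu s
      have h2 : ‖O.Ψ (i.u s)‖ ≤ ‖i.u s‖ := by
        have := O.Ψ.le_opNorm (i.u s)
        refine this.trans ?_
        calc ‖O.Ψ‖ * ‖i.u s‖ ≤ 1 * ‖i.u s‖ :=
              mul_le_mul_of_nonneg_right O.norm_le (norm_nonneg _)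
          _ = ‖i.u s‖ := one_mul _
      have h3 : ‖(η⁻¹ • (O.Ψ.toLinearMap.comp i.u)) s‖ = η⁻¹ * ‖O.Ψ (i.u s)‖ := by
        change ‖η⁻¹ • (O.Ψ (i.u s))‖ = _
        rw [norm_smul, Real.norm_eq_abs, abs_of_pos (by positivity)]
      rw [h3]
      calc η⁻¹ * ‖O.Ψ (i.u s)‖ ≤ η⁻¹ * (η * (∑ k, |(s : Fin i.n → ℝ) k| ^ q) ^ (1 / q)) :=
            mul_le_mul_of_nonneg_left (h2.trans h1) (by positivity)
        _ = (∑ k, |(s : Fin i.n → ℝ) k| ^ q) ^ (1 / q) := by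
            rw [← mul_assoc, inv_mul_cancel₀ hη.ne', one_mul])
    refine ⟨fun k => η • b k, fun s => ?_, fun t => ?_⟩
    · have h1 := hb1 s
      have h2 : (η⁻¹ • (O.Ψ.toLinearMap.comp i.u)) s = η⁻¹ • O.Ψ (i.u s) := rfl
      rw [h2] at h1
      have h3 : O.Ψ (i.u s) = η • ∑ k, (s : Fin i.n → ℝ) k • b k := by
        rw [← h1, smul_smul, mul_inv_cancel₀ hη.ne', one_smul]
      rw [h3, Finset.smul_sum]
      exact Finset.sum_congr rfl fun k _ => smul_comm _ _ _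
    · have h1 : ∑ k, t k • η • b k = η • ∑ k, t k • b k := by
        rw [Finset.smul_sum]
        exact Finset.sum_congr rfl fun k _ => smul_comm _ _ _
      have h0 : 0 ≤ (∑ k, |t k| ^ q) ^ (1 / q) :=
        Real.rpow_nonneg (Finset.sum_nonneg fun k _ => Real.rpow_nonneg (abs_nonneg _) _) _
      rw [h1, norm_smul, Real.norm_eq_abs, abs_of_pos hη]
      calc η * ‖∑ k, t k • b k‖ ≤ η * (lam * (∑ k, |t k| ^ q) ^ (1 / q)) :=
            mul_le_mul_of_nonneg_left (hb2 t) hη.le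
        _ = (η * lam) * (∑ k, |t k| ^ q) ^ (1 / q) := by ring
        _ ≤ 1 * (∑ k, |t k| ^ q) ^ (1 / q) := mul_le_mul_of_nonneg_right hηlam h0
        _ = _ := one_mul _
  choose b hb1 hb2 using hbi
  let gV : Idx q η O.X → lp B 1 →ₗ[ℝ] Z := fun i =>
    (Fintype.linearCombination ℝ (b i)).comp
      ((WithLp.linearEquiv (ENNReal.ofReal q) ℝ (Fin i.n → ℝ)).toLinearMap.comp
        ((lp.evalCLM ℝ B 1 i).toLinearMap))
  have hgVe : ∀ i (x : lp B 1), gV i x = ∑ k, (x i k) • b i k := fun i x => rfl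
  have hgV : ∀ i (x : lp B 1), ‖gV i x‖ ≤ 1 * ‖x i‖ := by
    intro i x
    rw [one_mul, hgVe]
    have h2 : ‖x i‖ = (∑ k, |x i k| ^ q) ^ (1 / q) := hnq i.n _
    rw [h2]
    exact hb2 i _
  obtain ⟨v, hv, hvn⟩ := sumMap gV (fun i x => ‖x i‖) 1 zero_le_one
    (fun x => (norm_l1 x).1) (fun x => (norm_l1 x).2.symm.le) hgV
  have hvU : ∀ s : T, v (s : lp B 1) = O.Ψ (U s) := by
    intro s
    have h1 : HasSum (fun i => O.Ψ (gU i s)) (O.Ψ (U s)) := O.Ψ.hasSum (hU s)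
    refine (hv (s : lp B 1)).unique ?_
    refine h1.congr_fun fun i => ?_
    exact (hb1 i ⟨_, mem' i _ (s.2 i)⟩).symm
  obtain ⟨Ψ', hΨ'n, hΨ'⟩ := huniv Z O.Ψ v O.norm_le hvn hvU
  letI := i1
  letI := i2
  letI := i3
  refine ⟨⟨X', hcot, Ψ', hΨ'n⟩, j, hΨ', ?_⟩
  -- the extension property
  intro n S u hu
  let i0 : Idx q η O.X := ⟨n, S, u, hu⟩
  let em : (Fin n → ℝ) →ₗ[ℝ] lp B 1 :=
    (lp.singleContinuousLinearMap ℝ B 1 i0).toLinearMap.comp
      (WithLp.linearEquiv (ENNReal.ofReal q) ℝ (Fin n → ℝ)).symm.toLinearMap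
  have hemn : ∀ t, ‖em t‖ = (∑ i, |t i| ^ q) ^ (1 / q) := by
    intro t
    have h1 : ‖em t‖ = ‖(WithLp.toLp (ENNReal.ofReal q) t : B i0)‖ :=
      lp.norm_single one_pos i0 _
    rw [h1]
    exact hnq n _
  have hemT : ∀ s : S, em (s : Fin n → ℝ) ∈ T := by
    intro s i
    by_cases h : i = i0
    · subst h
      have h1 : (em (s : Fin n → ℝ)) i0 = (WithLp.toLp (ENNReal.ofReal q) (s : Fin n → ℝ) : B i0) :=
        lp.single_apply_self 1 i0 _
      rw [h1]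
      exact s.2
    · have h1 : (em (s : Fin n → ℝ)) i = 0 := lp.single_apply_ne 1 i0 _ h
      rw [h1]
      exact (S' i).zero_mem
  have hsum : ∀ t : Fin n → ℝ, kk (em t) = ∑ i, t i • kk (em (Pi.single i 1)) := by
    intro t
    have h1 : t = ∑ i, t i • (Pi.single i (1 : ℝ) : Fin n → ℝ) := by
      funext l
      simp [Finset.sum_apply, Pi.single_apply]
    calc kk (em t) = kk (em (∑ i, t i • (Pi.single i (1 : ℝ) : Fin n → ℝ))) := by rw [← h1]
      _ = ∑ i, t i • kk (em (Pi.single i 1)) := by simp only [map_sum, map_smul]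
  refine ⟨fun k => kk (em (Pi.single k 1)), fun s => ?_, fun t => ?_⟩
  · rw [← hsum]
    have h1 := hjk ⟨em (s : Fin n → ℝ), hemT s⟩
    have h2 : U ⟨em (s : Fin n → ℝ), hemT s⟩ = u s := by
      refine (hU ⟨em (s : Fin n → ℝ), hemT s⟩).unique ?_
      have h3 : u s = gU i0 ⟨em (s : Fin n → ℝ), hemT s⟩ := by
        change u s = u _
        congr 1
        apply Subtype.ext
        have h4 : (em (s : Fin n → ℝ)) i0 =
            (WithLp.toLp (ENNReal.ofReal q) (s : Fin n → ℝ) : B i0) :=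
          lp.single_apply_self 1 i0 _
        change (s : Fin n → ℝ) = (WithLp.linearEquiv (ENNReal.ofReal q) ℝ (Fin n → ℝ))
          ((em (s : Fin n → ℝ)) i0)
        rw [h4]
        rfl
      rw [h3]
      refine hasSum_single i0 fun i hi => ?_
      have h5 : (em (s : Fin n → ℝ)) i = 0 := lp.single_apply_ne 1 i0 _ hi
      have h6 := hgU i ⟨em (s : Fin n → ℝ), hemT s⟩
      have h7 : ‖((⟨em (s : Fin n → ℝ), hemT s⟩ : T) : lp B 1) i‖ = 0 := by
        change ‖(em (s : Fin n → ℝ)) i‖ = 0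
        rw [h5, norm_zero]
      rw [h7, mul_zero] at h6
      exact norm_le_zero_iff.1 h6
    rw [← h2]
    exact h1.symm
  · rw [← hsum, ← hemn]
    calc ‖kk (em t)‖ ≤ ‖kk‖ * ‖em t‖ := kk.le_opNorm _
      _ ≤ 1 * ‖em t‖ := mul_le_mul_of_nonneg_right hkk (norm_nonneg _)
      _ = ‖em t‖ := one_mul _

end Pool.Agent.Helper84.BAP
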